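import Mathlib
import Pool.Agent.Helper35.HC.StG
import Pool.Agent.Helper26.MS.M_SCL

/-!
Project HC, module CN3: the rescaled flow (adapted from `Helper22/HSF/M_CNN.lean`).
-/

set_option autoImplicit false

namespace Helper41.HC

open Helper35.HC Helper35.HSF Helper35.MS Helper35.PI Helper35.PI2 Helper32.CL
open scoped ContDiff Manifold Topology ENNReal BigOperators
open MeasureTheory Set Filter

private theorem pos_of {n : ℕ} {TE τ : ℝ} (hTE1 : 2 * n * TE ≤ 1) (hn : 1 ≤ n) (h : τ < TE) :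
    0 < rr n τ := by
  have hn0 : (0 : ℝ) < n := by exact_mod_cast hn
  unfold rr
  have : 2 * (n : ℝ) * τ < 2 * n * TE := mul_lt_mul_of_pos_left h (by positivity)
  linarith

private theorem sg_tm {n : ℕ} (hn : 1 ≤ n) {τ : ℝ} (h : 0 < rr n τ) : sgN n (tmN n τ) = τ := by
  have hn0 : (0 : ℝ) < n := by exact_mod_cast hn
  unfold sgN tmN
  have h1 : -(2 * (n : ℝ) * -(Real.log (rr n τ) / (2 * n))) = Real.log (rr n τ) := by
    field_simp
  rw [h1, Real.exp_log h]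
  unfold rr
  field_simp
  ring

private theorem tm_nonneg {n : ℕ} (hn : 1 ≤ n) {τ : ℝ} (h : 0 < rr n τ) (h0 : 0 ≤ τ) :
    0 ≤ tmN n τ := by
  have hn0 : (0 : ℝ) < n := by exact_mod_cast hn
  unfold tmN
  have h1 : Real.log (rr n τ) ≤ 0 := by
    apply Real.log_nonpos h.le
    unfold rr
    have : 0 ≤ 2 * (n : ℝ) * τ := by positivity
    linarith
  have h2 : Real.log (rr n τ) / (2 * n) ≤ 0 := div_nonpos_of_nonpos_of_nonneg h1 (by positivity)
  linarith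

private theorem tm_pos {n : ℕ} (hn : 1 ≤ n) {τ : ℝ} (h : 0 < rr n τ) (h0 : 0 < τ) : 0 < tmN n τ := by
  have hn0 : (0 : ℝ) < n := by exact_mod_cast hn
  unfold tmN
  have h1 : Real.log (rr n τ) < 0 := by
    apply Real.log_neg h
    unfold rr
    have : 0 < 2 * (n : ℝ) * τ := by positivity
    linarith
  have h2 : Real.log (rr n τ) / (2 * n) < 0 := div_neg_of_neg_of_pos h1 (by positivity)
  linarith

private theorem sg_cont (n : ℕ) : Continuous (sgN n) := by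
  unfold sgN
  fun_prop

private theorem rr_deriv (n : ℕ) (τ : ℝ) : HasDerivAt (rr n) (-(2 * n)) τ := by
  have h1 : HasDerivAt (fun x : ℝ => 1 - 2 * (n : ℝ) * x) (-(2 * n * 1)) τ :=
    ((hasDerivAt_id τ).const_mul (2 * (n : ℝ))).const_sub 1
  rw [mul_one] at h1
  exact h1

private theorem tm_deriv {n : ℕ} (hn : 1 ≤ n) {τ : ℝ} (h : 0 < rr n τ) :
    HasDerivAt (tmN n) (1 / rr n τ) τ := by
  have hn0 : (0 : ℝ) < n := by exact_mod_cast hn
  have h2 := (((rr_deriv n τ).log h.ne').div_const (2 * (n : ℝ))).neg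
  refine h2.congr_deriv ?_
  field_simp

private theorem sq_deriv {n : ℕ} {τ : ℝ} (h : 0 < rr n τ) :
    HasDerivAt (fun x : ℝ => Real.sqrt (rr n x)) (-(n / Real.sqrt (rr n τ))) τ := by
  have h2 := (rr_deriv n τ).sqrt h.ne'
  refine h2.congr_deriv ?_
  have h3 : Real.sqrt (rr n τ) ≠ 0 := (Real.sqrt_pos.2 h).ne'
  field_simp

section scal

variable {n N : ℕ} {M : Type} [TopologicalSpace M] [ChartedSpace (EE n) M]

private theorem loc_eq {F G : M → ℝ → EE N} {t s c : ℝ} (hFG : ∀ q, G q s = c • F q t) (q : M) :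
    loc (n := n) G q s = fun y => c • loc (n := n) F q t y := by
  funext y
  exact hFG _

private theorem tv_eq {F G : M → ℝ → EE N} {t s c : ℝ} (hc : c ≠ 0) (hFG : ∀ q, G q s = c • F q t)
    (q : M) (u : Fin n → ℝ) : tv G q s u = c • tv F q t u := by
  unfold tv
  rw [loc_eq hFG q, Finset.smul_sum]
  refine Finset.sum_congr rfl fun i _ => ?_
  rw [Helper26.MS.scl_dv1 _ c hc, smul_comm]

private theorem An_eq {F G : M → ℝ → EE N} {t s c : ℝ} (hc : c ≠ 0) (hFG : ∀ q, G q s = c • F q t)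
    (q : M) (u : Fin n → ℝ) : An G q s u = c • An F q t u := by
  unfold An
  rw [loc_eq hFG q, Finset.smul_sum]
  refine Finset.sum_congr rfl fun i _ => ?_
  rw [Finset.smul_sum]
  refine Finset.sum_congr rfl fun j _ => ?_
  rw [Helper26.MS.scl_sff _ c hc, smul_comm]

end scal

/-- Module CN3. -/
theorem hCN3 (hSCL : StSCL) (hHSN : StHSN) (hCTN : StCTN) : StCN3 := by
  intro n hn M _ _ _ F TE hTE hTE1 hF
  have hn0 : (0 : ℝ) < n := by exact_mod_cast hn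
  have hmem : ∀ τ ∈ Ico 0 TE, tmN n τ ∈ ISN n TE := by
    intro τ hτ
    have h := pos_of hTE1 hn hτ.2
    refine ⟨tm_nonneg hn h hτ.1, ?_⟩
    rw [sg_tm hn h]
    exact hτ.2
  have hsc : ∀ τ ∈ Ico 0 TE, ∀ q, LI (loc (n := n) (FEN n F) q τ) (chartAt (EE n) q q) ∧
      HH (n := n) (FEN n F) q τ = (1 / Real.sqrt (rr n τ)) • HH (n := n) F q (tmN n τ) ∧
      AA (n := n) (FEN n F) q τ = AA (n := n) F q (tmN n τ) / Real.sqrt (rr n τ) ^ 2 ∧
      ZF (n := n) (FEN n F) q τ = ZF (n := n) F q (tmN n τ) / Real.sqrt (rr n τ) ^ 4 := by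
    intro τ hτ q
    have h := pos_of hTE1 hn hτ.2
    exact hSCL n (n + 3) M F (FEN n F) (tmN n τ) τ (Real.sqrt (rr n τ)) (Real.sqrt_pos.2 h)
      (fun q => rfl) q (hF.imm q (tmN n τ) (hmem τ hτ))
  -- smooth change of time
  have e0 : ContDiffOn ℝ ∞ (rr n) (Ioo 0 TE) := by
    unfold rr
    exact (contDiff_const.sub (contDiff_const.mul contDiff_id)).contDiffOn
  have e1 : ContDiffOn ℝ ∞ (tmN n) (Ioo 0 TE) := by
    unfold tmN
    refine (ContDiffOn.div_const (ContDiffOn.log e0 ?_) (2 * (n : ℝ))).neg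
    intro x hx
    exact (pos_of hTE1 hn hx.2).ne'
  have e2 : ContDiffOn ℝ ∞ (fun x : ℝ => Real.sqrt (rr n x)) (Ioo 0 TE) := by
    refine ContDiffOn.sqrt e0 ?_
    intro x hx
    exact (pos_of hTE1 hn hx.2).ne'
  have hsnd : ContMDiffOn ((𝓡 n).prod 𝓘(ℝ, ℝ)) 𝓘(ℝ, ℝ) ∞ (Prod.snd : M × ℝ → ℝ)
      (univ ×ˢ Ioo 0 TE) := contMDiff_snd.contMDiffOn
  have hm : MapsTo (Prod.snd : M × ℝ → ℝ) (univ ×ˢ Ioo 0 TE) (Ioo 0 TE) :=
    fun z hz => hz.2
  have e3 : ContMDiffOn ((𝓡 n).prod 𝓘(ℝ, ℝ)) 𝓘(ℝ, ℝ) ∞ (fun z : M × ℝ => tmN n z.2)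
      (univ ×ˢ Ioo 0 TE) := (contMDiffOn_iff_contDiffOn.2 e1).comp hsnd hm
  have e4 : ContMDiffOn ((𝓡 n).prod 𝓘(ℝ, ℝ)) 𝓘(ℝ, ℝ) ∞
      (fun z : M × ℝ => Real.sqrt (rr n z.2)) (univ ×ˢ Ioo 0 TE) :=
    (contMDiffOn_iff_contDiffOn.2 e2).comp hsnd hm
  have e5 : ContMDiffOn ((𝓡 n).prod 𝓘(ℝ, ℝ)) ((𝓡 n).prod 𝓘(ℝ, ℝ)) ∞
      (fun z : M × ℝ => (z.1, tmN n z.2)) (univ ×ˢ Ioo 0 TE) :=
    (contMDiff_fst.contMDiffOn).prodMk e3
  have e6 : MapsTo (fun z : M × ℝ => (z.1, tmN n z.2)) (univ ×ˢ Ioo 0 TE)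
      (univ ×ˢ ISN n TE) :=
    fun z hz => ⟨mem_univ _, hmem z.2 ⟨hz.2.1.le, hz.2.2⟩⟩
  refine ⟨⟨⟨⟨isOpen_Ioo, ?_, ?_⟩, ?_⟩, ?_, ?_⟩, ?_⟩
  · exact e4.smul (hF.smooth.comp e5 e6)
  · intro p τ hτ
    exact (hsc τ ⟨hτ.1.le, hτ.2⟩ p).1
  · intro p τ hτ
    have hτ' : τ ∈ Ico 0 TE := ⟨hτ.1.le, hτ.2⟩
    have h := pos_of hTE1 hn hτ.2
    have hr : 0 < Real.sqrt (rr n τ) := Real.sqrt_pos.2 h
    obtain ⟨-, hHH, -, -⟩ := hsc τ hτ' p
    have ht := hmem τ hτ'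
    have hnhds : ISN n TE ∈ 𝓝 (tmN n τ) := by
      have h1 : ∀ᶠ t in 𝓝 (tmN n τ), 0 < t := lt_mem_nhds (tm_pos hn h hτ.1)
      have h2 : ∀ᶠ t in 𝓝 (tmN n τ), sgN n t < TE := by
        refine (sg_cont n).continuousAt.eventually (gt_mem_nhds ?_)
        rw [sg_tm hn h]
        exact hτ.2
      filter_upwards [h1, h2] with t a b
      exact ⟨a.le, b⟩
    have hd : HasDerivAt (fun t => F p t) (HS (n := n) F p (tmN n τ)) (tmN n τ) :=
      (hF.flow p (tmN n τ) ht).hasDerivAt hnhds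
    have hcomp : HasDerivAt (fun x => F p (tmN n x))
        ((1 / (rr n τ)) • HS (n := n) F p (tmN n τ)) τ := hd.scomp τ (tm_deriv hn h)
    have hprod := (sq_deriv h).smul hcomp
    obtain ⟨himm, hfr⟩ := (hCTN n (n + 3) M (ISN n TE) F hF).1 (tmN n τ) ht
    obtain ⟨g1, -, g2, -⟩ := hfr p 0
    have hq := (hHSN n (n + 3) hn M univ (fun q (_ : ℝ) => F q (tmN n τ)) himm 0 (mem_univ _)
      (fun q => hF.sph q (tmN n τ) ht) p).1
    rw [g1, g2] at hq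
    rw [hHH]
    refine hprod.congr_deriv ?_
    rw [hq]
    have h5 : Real.sqrt (rr n τ) ^ 2 = rr n τ := Real.sq_sqrt h.le
    have h6 : 1 / rr n τ = 1 / Real.sqrt (rr n τ) ^ 2 := by rw [h5]
    rw [h6]
    generalize Real.sqrt (rr n τ) = r at hr
    have hr0 : r ≠ 0 := hr.ne'
    simp only [smul_add, smul_smul]
    have a1 : r * (1 / r ^ 2) = 1 / r := by field_simp
    have a2 : r * (1 / r ^ 2 * (n : ℝ)) = n / r := by field_simp
    rw [a1, a2, neg_smul]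
    abel
  · intro τ hτ
    exact pos_of hTE1 hn hτ.2
  · intro q τ hτ
    have h := pos_of hTE1 hn hτ.2
    unfold FEN
    rw [norm_smul, hF.sph q (tmN n τ) (hmem τ ⟨hτ.1.le, hτ.2⟩), mul_one, Real.norm_eq_abs,
      sq_abs, Real.sq_sqrt h.le]
  · intro τ hτ
    have h := pos_of hTE1 hn hτ.2
    have hr : Real.sqrt (rr n τ) ≠ 0 := (Real.sqrt_pos.2 h).ne'
    have h5 : Real.sqrt (rr n τ) ^ 2 = rr n τ := Real.sq_sqrt h.le
    have hFG : ∀ q, FEN n F q τ = Real.sqrt (rr n τ) • F q (tmN n τ) := fun q => rfl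
    refine ⟨hmem τ hτ, sg_tm hn h, h, fun q => ?_⟩
    obtain ⟨-, h2, h3, -⟩ := hsc τ hτ q
    have hA : AA (n := n) (FEN n F) q τ = AA (n := n) F q (tmN n τ) / rr n τ := by
      rw [h3, h5]
    have hH : ‖HH (n := n) (FEN n F) q τ‖ ^ 2 =
        ‖HH (n := n) F q (tmN n τ)‖ ^ 2 / rr n τ := by
      rw [h2, norm_smul, mul_pow, Real.norm_eq_abs, sq_abs, div_pow, one_pow, h5]
      ring
    refine ⟨hA, hH, ?_, fun c => ⟨?_, ?_⟩⟩
    · unfold thN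
      rw [hA, hH]
      ring
    · unfold gn
      rw [tv_eq hr hFG q c, norm_smul, mul_pow, Real.norm_eq_abs, sq_abs, h5]
    · exact An_eq hr hFG q c

end Helper41.HC
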