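import Pool.Agent.Helper35.HC.StE

/-!
# Project HC, module LFT : lifting of paths
-/

set_option autoImplicit false

namespace Pool.Agent.Helper41.HC

open Helper35.HC Helper35.HSF Helper35.MS Helper35.PI Helper35.PI2 Helper32.CL
open scoped ContDiff Manifold Topology ENNReal BigOperators
open MeasureTheory Set Filter

private theorem agree {M S : Type} [TopologicalSpace M] [T2Space M] [TopologicalSpace S]
    {K : Set M} {π : M → S}
    (he : ∀ q ∈ K, ∃ e : OpenPartialHomeomorph M S, q ∈ e.source ∧ EqOn π e e.source)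
    {a c : ℝ} {f f' : ℝ → M} (hf : ContinuousOn f (Icc a c))
    (hf' : ContinuousOn f' (Icc a c)) (h0 : f a = f' a) (hK : ∀ r ∈ Icc a c, f r ∈ K)
    (hπ : ∀ r ∈ Icc a c, π (f r) = π (f' r)) : ∀ r ∈ Icc a c, f r = f' r := by
  have hcl : IsClosed ({r | f r = f' r} ∩ Icc a c) := by
    have h1 : ContinuousOn (fun r => (f r, f' r)) (Icc a c) := hf.prodMk hf'
    have h2 := h1.preimage_isClosed_of_isClosed isClosed_Icc (isClosed_diagonal (X := M))
    rw [Set.inter_comm]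
    exact h2
  have h3 : Icc a c ⊆ {r | f r = f' r} := by
    refine hcl.Icc_subset_of_forall_mem_nhdsWithin h0 ?_
    rintro x ⟨hx, hx2⟩
    have hxI : x ∈ Icc a c := Ico_subset_Icc_self hx2
    obtain ⟨e, he1, he2⟩ := he (f x) (hK x hxI)
    have hI : Icc a c ∈ 𝓝[>] x := by
      have h5 : Ioo x c ∈ 𝓝[>] x := Ioo_mem_nhdsGT hx2.2
      exact mem_of_superset h5 (fun r hr => ⟨hx2.1.trans hr.1.le, hr.2.le⟩)
    have hf1 : Tendsto f (𝓝[>] x) (𝓝 (f x)) := (hf x hxI).mono_left (nhdsWithin_le_of_mem hI)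
    have hf2 : Tendsto f' (𝓝[>] x) (𝓝 (f x)) := by
      have h6 : f x = f' x := hx
      rw [h6]
      exact (hf' x hxI).mono_left (nhdsWithin_le_of_mem hI)
    have h7 : e.source ∈ 𝓝 (f x) := e.open_source.mem_nhds he1
    filter_upwards [hI, hf1 h7, hf2 h7] with r h1 h2 h3
    refine e.injOn h2 h3 ?_
    rw [← he2 h2, ← he2 h3]
    exact hπ r h1
  intro r hr
  exact h3 hr

theorem hLFT : StLFT := by
  intro M S _ _ _ _ _ K π hK he γ b q₀ hb hγ hq₀ hπ₀ hstay
  obtain ⟨Lift, hLift⟩ : ∃ Lift : ℝ → (ℝ → M) → Prop, ∀ s f, Lift s f ↔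
      (ContinuousOn f (Icc 0 s) ∧ f 0 = q₀ ∧ ∀ r ∈ Icc 0 s, f r ∈ K ∧ π (f r) = γ r) :=
    ⟨_, fun _ _ => Iff.rfl⟩
  obtain ⟨A, hA⟩ : ∃ A : Set ℝ, ∀ s, s ∈ A ↔ (s ∈ Icc 0 b ∧ ∃ f, Lift s f) :=
    ⟨{s | s ∈ Icc 0 b ∧ ∃ f, Lift s f}, fun _ => Iff.rfl⟩
  have hres : ∀ s f, Lift s f → ∀ r, r ≤ s → Lift r f := by
    intro s f h r hr
    rw [hLift] at h ⊢
    exact ⟨h.1.mono (Icc_subset_Icc_right hr), h.2.1, fun r' hr' =>
      h.2.2 r' ⟨hr'.1, hr'.2.trans hr⟩⟩
  have hdown : ∀ s ∈ A, ∀ r, 0 ≤ r → r ≤ s → r ∈ A := by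
    intro s hs r hr0 hrs
    rw [hA] at hs ⊢
    obtain ⟨h1, f, hf⟩ := hs
    exact ⟨⟨hr0, hrs.trans h1.2⟩, f, hres s f hf r hrs⟩
  have huniq : ∀ s f f', Lift s f → Lift s f' → ∀ r ∈ Icc 0 s, f r = f' r := by
    intro s f f' h h'
    rw [hLift] at h h'
    exact agree he h.1 h'.1 (h.2.1.trans h'.2.1.symm) (fun r hr => (h.2.2 r hr).1)
      (fun r hr => (h.2.2 r hr).2.trans (h'.2.2 r hr).2.symm)
  have h0 : (0 : ℝ) ∈ A := by
    rw [hA]
    refine ⟨⟨le_rfl, hb⟩, fun _ => q₀, ?_⟩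
    rw [hLift]
    refine ⟨continuousOn_const, rfl, ?_⟩
    intro r hr
    have h1 : r = 0 := le_antisymm hr.2 hr.1
    rw [h1]
    exact ⟨hq₀, hπ₀⟩
  -- closedness
  have hcl : IsClosed (A ∩ Icc 0 b) := by
    refine isClosed_of_closure_subset ?_
    intro s hs
    have hsI : s ∈ Icc 0 b := closure_minimal inter_subset_right isClosed_Icc hs
    refine ⟨?_, hsI⟩
    by_cases hex : ∃ s' ∈ A, s ≤ s'
    · obtain ⟨s', h1, h2⟩ := hex
      exact hdown s' h1 s hsI.1 h2
    push Not at hex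
    have hs0 : 0 < s := hex 0 h0
    have hAr : ∀ r, 0 ≤ r → r < s → r ∈ A := by
      intro r hr0 hrs
      obtain ⟨s', h1, h2⟩ := mem_closure_iff.1 hs (Ioi r) isOpen_Ioi hrs
      exact hdown s' h2.1 r hr0 (le_of_lt h1)
    have hex2 : ∀ r : ℝ, ∃ f : ℝ → M, 0 ≤ r → r < s → Lift r f := by
      intro r
      by_cases h1 : 0 ≤ r ∧ r < s
      · obtain ⟨f, hf⟩ := ((hA r).1 (hAr r h1.1 h1.2)).2
        exact ⟨f, fun _ _ => hf⟩
      · exact ⟨fun _ => q₀, fun h2 h3 => absurd ⟨h2, h3⟩ h1⟩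
    choose Fm hFm using hex2
    obtain ⟨f, hfdef⟩ : ∃ f : ℝ → M, ∀ r, f r = Fm r r := ⟨fun r => Fm r r, fun _ => rfl⟩
    have hfF : ∀ r r', 0 ≤ r → r ≤ r' → r' < s → f r = Fm r' r := by
      intro r r' h1 h2 h3
      rw [hfdef]
      exact huniq r (Fm r) (Fm r') (hFm r h1 (h2.trans_lt h3))
        (hres r' _ (hFm r' (h1.trans h2) h3) r h2) r ⟨h1, le_rfl⟩
    have hL : ∀ r', 0 ≤ r' → r' < s → Lift r' f := by
      intro r' h1 h2
      have h3 := (hLift _ _).1 (hFm r' h1 h2)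
      rw [hLift]
      refine ⟨h3.1.congr (fun r hr => hfF r r' hr.1 hr.2 h2), ?_, ?_⟩
      · rw [hfF 0 r' le_rfl h1 h2]
        exact h3.2.1
      · intro r hr
        rw [hfF r r' hr.1 hr.2 h2]
        exact h3.2.2 r hr
    have hfK : ∀ r, 0 ≤ r → r < s → f r ∈ K ∧ π (f r) = γ r := fun r h1 h2 =>
      ((hLift _ _).1 (hL r h1 h2)).2.2 r ⟨h1, le_rfl⟩
    obtain ⟨qs, hqs⟩ := exists_clusterPt_of_compactSpace (Filter.map f (𝓝[<] s))
    have hfreq : ∀ U ∈ 𝓝 qs, ∃ᶠ r in 𝓝[<] s, f r ∈ U := by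
      intro U hU
      have h1 := hqs.frequently (p := fun y => y ∈ U) hU
      exact h1
    have hev : ∀ᶠ r in 𝓝[<] s, r ∈ Ioo 0 s := Ioo_mem_nhdsLT hs0
    have hqK : qs ∈ K := by
      by_contra hn
      have h1 := hfreq Kᶜ (hK.isOpen_compl.mem_nhds hn)
      obtain ⟨r, h2, h3⟩ := (h1.and_eventually hev).exists
      exact h2 (hfK r h3.1.le h3.2).1
    obtain ⟨e, he1, he2⟩ := he qs hqK
    have hγs : Tendsto γ (𝓝[<] s) (𝓝 (γ s)) := by
      refine (hγ s hsI).mono_left (nhdsWithin_le_of_mem ?_)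
      exact mem_of_superset hev (fun r hr => ⟨hr.1.le, hr.2.le.trans hsI.2⟩)
    have heq : e qs = γ s := by
      by_contra hne
      obtain ⟨U, V, hU, hV, hUq, hVs, hd⟩ := t2_separation hne
      have h1 : e.source ∩ e ⁻¹' U ∈ 𝓝 qs :=
        inter_mem (e.open_source.mem_nhds he1)
          ((e.continuousAt he1).preimage_mem_nhds (hU.mem_nhds hUq))
      obtain ⟨r, h2, h3, h4⟩ := ((hfreq _ h1).and_eventually
        (hev.and (hγs (hV.mem_nhds hVs)))).exists
      have h5 : e (f r) = γ r := by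
        rw [← he2 h2.1]
        exact (hfK r h3.1.le h3.2).2
      have h6 : γ r ∈ U := by
        rw [← h5]
        exact h2.2
      exact Set.disjoint_left.1 hd h6 h4
    have htg : γ s ∈ e.target := by
      rw [← heq]
      exact e.map_source he1
    have htgt : {r | γ r ∈ e.target} ∈ 𝓝[<] s := hγs (e.open_target.mem_nhds htg)
    obtain ⟨l, hl, hls⟩ := mem_nhdsLT_iff_exists_Ioo_subset.1 htgt
    have hl2 : max l 0 < s := max_lt hl hs0
    obtain ⟨s', hs1, hs2⟩ := ((hfreq _ (e.open_source.mem_nhds he1)).and_eventually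
      (Ioo_mem_nhdsLT hl2)).exists
    have hs'0 : 0 < s' := (le_max_right l 0).trans_lt hs2.1
    have hs'l : l < s' := (le_max_left l 0).trans_lt hs2.1
    have hs's : s' < s := hs2.2
    obtain ⟨ψ, hψ⟩ : ∃ ψ : ℝ → M, ∀ r, ψ r = e.symm (γ r) := ⟨_, fun _ => rfl⟩
    have hψs : ψ s = qs := by
      rw [hψ, ← heq]
      exact e.left_inv he1
    have hψf : ∀ r, s' ≤ r → r < s → f r = ψ r := by
      intro r hr1 hr2
      have hf := (hLift _ _).1 (hL r (hs'0.le.trans hr1) hr2)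
      have htr : ∀ r' ∈ Icc s' r, γ r' ∈ e.target := fun r' hr' =>
        hls ⟨hs'l.trans_le hr'.1, hr'.2.trans_lt hr2⟩
      have hc : ContinuousOn ψ (Icc s' r) := by
        have h1 : ContinuousOn (fun r => e.symm (γ r)) (Icc s' r) :=
          e.symm.continuousOn.comp (hγ.mono (fun r' hr' =>
            ⟨hs'0.le.trans hr'.1, (hr'.2.trans hr2.le).trans hsI.2⟩)) htr
        exact h1.congr (fun r' _ => hψ r')
      refine agree he (hf.1.mono (Icc_subset_Icc_left hs'0.le)) hc ?_ ?_ ?_ r ⟨hr1, le_rfl⟩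
      · have h1 : γ s' = e (f s') := by
          rw [← he2 hs1]
          exact (hf.2.2 s' ⟨hs'0.le, hr1⟩).2.symm
        rw [hψ, h1]
        exact (e.left_inv hs1).symm
      · intro r' hr'
        exact (hf.2.2 r' ⟨hs'0.le.trans hr'.1, hr'.2⟩).1
      · intro r' hr'
        rw [(hf.2.2 r' ⟨hs'0.le.trans hr'.1, hr'.2⟩).2, hψ,
          he2 (e.map_target (htr r' hr')), e.right_inv (htr r' hr')]
    rw [hA]
    refine ⟨hsI, fun r => if r < s then f r else qs, ?_⟩
    rw [hLift]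
    refine ⟨?_, ?_, ?_⟩
    · intro r hr
      rcases lt_or_eq_of_le hr.2 with h | h
      · obtain ⟨r1, h1, h2⟩ := exists_between h
        have hf := (hLift _ _).1 (hL r1 (hr.1.trans h1.le) h2)
        have hc : ContinuousWithinAt f (Icc 0 s) r := by
          refine (hf.1 r ⟨hr.1, h1.le⟩).mono_of_mem_nhdsWithin ?_
          rw [mem_nhdsWithin]
          exact ⟨Iio r1, isOpen_Iio, h1, fun r' hr' => ⟨hr'.2.1, le_of_lt hr'.1⟩⟩
        refine hc.congr_of_eventuallyEq ?_ (if_pos h)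
        have h3 : Iio s ∈ 𝓝[Icc 0 s] r := mem_nhdsWithin_of_mem_nhds (isOpen_Iio.mem_nhds h)
        filter_upwards [h3] with r' hr'
        exact if_pos hr'
      · subst h
        have hc : ContinuousWithinAt ψ (Icc 0 r) r := by
          have h1 : ContinuousWithinAt (fun r' => e.symm (γ r')) (Icc 0 r) r :=
            ContinuousAt.comp_continuousWithinAt (e.symm.continuousAt htg)
              ((hγ r hsI).mono (Icc_subset_Icc_right hsI.2))
          exact h1.congr (fun r' _ => hψ r') (hψ r)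
        refine hc.congr_of_eventuallyEq ?_ ?_
        · have h3 : Ioi s' ∈ 𝓝[Icc 0 r] r := mem_nhdsWithin_of_mem_nhds (isOpen_Ioi.mem_nhds hs's)
          filter_upwards [h3, self_mem_nhdsWithin] with r' hr' hr''
          rcases lt_or_eq_of_le hr''.2 with h | h
          · simp only [if_pos h]
            exact hψf r' (le_of_lt hr') h
          · simp only [h, lt_irrefl, if_false]
            exact hψs.symm
        · simp only [lt_irrefl, if_false]
          exact hψs.symm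
    · simp only [if_pos hs0]
      exact ((hLift _ _).1 (hL 0 le_rfl hs0)).2.1
    · intro r hr
      rcases lt_or_eq_of_le hr.2 with h | h
      · simp only [if_pos h]
        exact hfK r hr.1 h
      · simp only [h, lt_irrefl, if_false]
        refine ⟨hqK, ?_⟩
        rw [he2 he1]
        exact heq
  -- openness
  have hop : ∀ x ∈ A ∩ Ico 0 b, A ∈ 𝓝[>] x := by
    rintro x ⟨hxA, hxI⟩
    have hxb : x ∈ Icc 0 b := Ico_subset_Icc_self hxI
    obtain ⟨-, f, hf⟩ := (hA x).1 hxA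
    have hf' := (hLift _ _).1 hf
    have hfx := hf'.2.2 x ⟨hxI.1, le_rfl⟩
    obtain ⟨e, he1, he2⟩ := he (f x) hfx.1
    have hst := hstay x hxb f hf'.1 hf'.2.1 hf'.2.2
    have heq : e (f x) = γ x := by
      rw [← he2 he1]
      exact hfx.2
    have htg : γ x ∈ e.target := by
      rw [← heq]
      exact e.map_source he1
    have hψx : e.symm (γ x) = f x := by
      rw [← heq]
      exact e.left_inv he1
    have hγx : Tendsto γ (𝓝[>] x) (𝓝 (γ x)) := by
      refine (hγ x hxb).mono_left (nhdsWithin_le_of_mem ?_)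
      exact mem_of_superset (Ioo_mem_nhdsGT hxI.2) (fun r hr =>
        ⟨hxI.1.trans hr.1.le, hr.2.le⟩)
    have hψt : Tendsto (fun r => e.symm (γ r)) (𝓝[>] x) (𝓝 (f x)) := by
      have h1 : Tendsto e.symm (𝓝 (γ x)) (𝓝 (e.symm (γ x))) := e.symm.continuousAt htg
      rw [hψx] at h1
      exact h1.comp hγx
    have hgood : {r | γ r ∈ e.target ∧ e.symm (γ r) ∈ K} ∈ 𝓝[>] x := by
      filter_upwards [hγx (e.open_target.mem_nhds htg), hψt hst] with r h1 h2
      exact ⟨h1, h2⟩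
    obtain ⟨v, hv, hvs⟩ := mem_nhdsGT_iff_exists_Ioo_subset.1 hgood
    have hv2 : x < min v b := lt_min hv hxI.2
    filter_upwards [Ioo_mem_nhdsGT hv2] with r1 hr1
    have hr1v : r1 < v := hr1.2.trans_le (min_le_left _ _)
    have hr1b : r1 < b := hr1.2.trans_le (min_le_right _ _)
    have htr : ∀ r ∈ Icc x r1, γ r ∈ e.target ∧ e.symm (γ r) ∈ K := by
      intro r hr
      rcases eq_or_lt_of_le hr.1 with h | h
      · rw [← h]
        refine ⟨htg, ?_⟩
        rw [hψx]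
        exact hfx.1
      · exact hvs ⟨h, hr.2.trans_lt hr1v⟩
    rw [hA]
    refine ⟨⟨hxI.1.trans hr1.1.le, hr1b.le⟩, fun r => if r ≤ x then f r else e.symm (γ r), ?_⟩
    rw [hLift]
    refine ⟨?_, ?_, ?_⟩
    · have hun : Icc 0 r1 = Icc 0 x ∪ Icc x r1 := (Icc_union_Icc_eq_Icc hxI.1 hr1.1.le).symm
      rw [hun]
      refine ContinuousOn.union_of_isClosed ?_ ?_ isClosed_Icc isClosed_Icc
      · exact hf'.1.congr (fun r hr => if_pos hr.2)
      · have h1 : ContinuousOn (fun r => e.symm (γ r)) (Icc x r1) :=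
          e.symm.continuousOn.comp (hγ.mono (fun r hr =>
            ⟨hxI.1.trans hr.1, hr.2.trans hr1b.le⟩)) (fun r hr => (htr r hr).1)
        refine h1.congr (fun r hr => ?_)
        rcases eq_or_lt_of_le hr.1 with h | h
        · rw [← h]
          simp only [le_refl, if_true]
          exact hψx.symm
        · exact if_neg (not_le.2 h)
    · simp only [if_pos hxI.1]
      exact hf'.2.1
    · intro r hr
      by_cases h : r ≤ x
      · simp only [if_pos h]
        exact hf'.2.2 r ⟨hr.1, h⟩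
      · simp only [if_neg h]
        have h1 := htr r ⟨(not_le.1 h).le, hr.2⟩
        refine ⟨h1.2, ?_⟩
        rw [he2 (e.map_target h1.1), e.right_inv h1.1]
  have hbA : b ∈ A := hcl.Icc_subset_of_forall_mem_nhdsWithin h0 hop ⟨hb, le_rfl⟩
  obtain ⟨-, f, hf⟩ := (hA b).1 hbA
  exact ⟨f, (hLift _ _).1 hf⟩

end Pool.Agent.Helper41.HC
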